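import Pool.Agent.H41.FD.A
import Pool.Agent.H41.FD.B

/-! # Range of dependence and infinitely many events, general probabilities -/

set_option autoImplicit false

namespace Pool.Agent.H41.DT

open MeasureTheory Filter Topology ProbabilityTheory
open Pool.Agent.H41.LD (Past Future RangeDep past_mono event_past event_future indep_real)
open Pool.Agent.H41.FD

lemma sum_kap {d : ℕ → ℕ} (hd : Monotone d) {p : ℕ → ℝ} (hp : Antitone p) (hp0 : ∀ k, 0 ≤ p k)
    (K : ℕ) (h : ¬ Summable (fun k : ℕ => p k / (1 + (d k : ℝ)))) :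
    Tendsto (fun N : ℕ => ∑ i ∈ Finset.range N, p (kap d K i)) atTop atTop := by
  set f : ℕ → ℝ := fun k => p k / (1 + (d k : ℝ)) with hf
  have hf0 : ∀ k, 0 ≤ f k := fun k => div_nonneg (hp0 k) (by positivity)
  have h1 : Tendsto (fun n => ∑ k ∈ Finset.range n, f k) atTop atTop :=
    (not_summable_iff_tendsto_nat_atTop_of_nonneg hf0).1 h
  have h2 := h1.comp (kap_mono d K).tendsto_atTop
  have h3 : ∀ N, ∑ k ∈ Finset.range (kap d K N), f k ≤
      ∑ k ∈ Finset.range K, f k + ∑ i ∈ Finset.range N, p (kap d K i) := by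
    intro N
    induction N with
    | zero => simp [kap]
    | succ N ih =>
      have e : kap d K (N + 1) = kap d K N + (d (kap d K N) + 1) := by
        show kap d K N + d (kap d K N) + 1 = _
        omega
      rw [e, Finset.sum_range_add, Finset.sum_range_succ (n := N)]
      have h4 : ∑ x ∈ Finset.range (d (kap d K N) + 1), f (kap d K N + x) ≤ p (kap d K N) := by
        have h5 : ∀ x ∈ Finset.range (d (kap d K N) + 1), f (kap d K N + x) ≤
            p (kap d K N) / (1 + (d (kap d K N) : ℝ)) := by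
          intro x _
          have h6 : (d (kap d K N) : ℝ) ≤ d (kap d K N + x) := by
            exact_mod_cast hd (Nat.le_add_right _ _)
          have h7 : p (kap d K N + x) ≤ p (kap d K N) := hp (Nat.le_add_right _ _)
          simp only [hf]
          exact div_le_div₀ (hp0 _) h7 (by positivity) (by linarith)
        refine (Finset.sum_le_sum h5).trans (le_of_eq ?_)
        rw [Finset.sum_const, Finset.card_range, nsmul_eq_mul]
        push_cast
        have : (0 : ℝ) < 1 + (d (kap d K N) : ℝ) := by positivity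
        field_simp
        ring
      linarith
  have h7 : Tendsto (fun N : ℕ => ∑ k ∈ Finset.range K, f k +
      ∑ i ∈ Finset.range N, p (kap d K i)) atTop atTop :=
    tendsto_atTop_mono h3 h2
  exact (tendsto_atTop_add_const_left _ (-∑ k ∈ Finset.range K, f k) h7).congr fun N => by ring

/-- the divergent case -/
theorem gen_a {d : ℕ → ℕ} (hd : Monotone d) {p : ℕ → ℝ} (hp : Antitone p) (hp0 : ∀ k, 0 ≤ p k)
    (hns : ¬ Summable (fun k : ℕ => p k / (1 + (d k : ℝ))))
    {Ω : Type} [MeasurableSpace Ω] {P : Measure Ω} [IsProbabilityMeasure P] {E : ℕ → Set Ω}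
    {c : ℝ} (hc : 0 < c) (hR : RangeDep P E d) (hP : ∀ᶠ k : ℕ in atTop, c * p k ≤ P.real (E k)) :
    ∀ᵐ ω ∂P, {k | ω ∈ E k}.Infinite := by
  obtain ⟨K₁, hK₁⟩ := eventually_atTop.1 hP
  have hmain : ∀ K : ℕ, K₁ ≤ K → P {ω | ∀ k, K ≤ k → ω ∉ E k} = 0 := by
    intro K hK
    set A : ℕ → Set Ω := fun N => ⋂ i ∈ Finset.range N, (E (kap d K i))ᶜ with hA
    have hkK : ∀ i, K ≤ kap d K i := fun i => (kap_mono d K).monotone (Nat.zero_le i)
    have hsucc : ∀ N, A (N + 1) = A N ∩ (E (kap d K N))ᶜ := by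
      intro N
      simp only [hA]
      ext ω
      simp only [Set.mem_iInter, Finset.mem_range, Set.mem_inter_iff]
      constructor
      · intro h
        exact ⟨fun i hi => h i (by omega), h N (by omega)⟩
      · rintro ⟨h1, h2⟩ i hi
        rcases Nat.lt_succ_iff_lt_or_eq.1 hi with h | h
        · exact h1 i h
        · rw [h]; exact h2
    have hA0 : A 0 = Set.univ := by simp [hA]
    have hpast : ∀ N, MeasurableSet[Past E (kap d K N)] (A (N + 1)) := by
      intro N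
      simp only [hA]
      refine Finset.measurableSet_biInter _ fun i hi => MeasurableSet.compl ?_
      exact event_past ((kap_mono d K).monotone (Nat.lt_succ_iff.1 (Finset.mem_range.1 hi)))
    have hprod : ∀ N, P.real (A N ∩ (E (kap d K N))ᶜ) =
        P.real (A N) * P.real ((E (kap d K N))ᶜ) := by
      intro N
      cases N with
      | zero => rw [hA0, Set.univ_inter, probReal_univ, one_mul]
      | succ N =>
        refine indep_real (hR.indep (kap d K N)) (hpast N) (MeasurableSet.compl ?_)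
        refine event_future ?_
        show _ < kap d K N + d (kap d K N) + 1
        omega
    have hbound : ∀ N, P.real (A N) ≤
        Real.exp (-(c * ∑ i ∈ Finset.range N, p (kap d K i))) := by
      intro N
      induction N with
      | zero => rw [hA0]; simp
      | succ N ih =>
        rw [hsucc, hprod, Finset.sum_range_succ]
        have h1 : P.real ((E (kap d K N))ᶜ) ≤ Real.exp (-(c * p (kap d K N))) := by
          rw [probReal_compl_eq_one_sub (hR.meas _)]
          have h2 := hK₁ (kap d K N) (hK.trans (hkK N))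
          have h3 := Real.add_one_le_exp (-(c * p (kap d K N)))
          linarith
        calc P.real (A N) * P.real ((E (kap d K N))ᶜ)
            ≤ Real.exp (-(c * ∑ i ∈ Finset.range N, p (kap d K i))) *
              Real.exp (-(c * p (kap d K N))) :=
              mul_le_mul ih h1 measureReal_nonneg (Real.exp_pos _).le
          _ = _ := by rw [← Real.exp_add]; ring_nf
    have hlim : Tendsto (fun N : ℕ => Real.exp (-(c * ∑ i ∈ Finset.range N, p (kap d K i))))
        atTop (𝓝 0) := by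
      have h1 := (sum_kap hd hp hp0 K hns).const_mul_atTop hc
      exact Real.tendsto_exp_neg_atTop_nhds_zero.comp h1
    have hle : ∀ N, P.real {ω | ∀ k, K ≤ k → ω ∉ E k} ≤
        Real.exp (-(c * ∑ i ∈ Finset.range N, p (kap d K i))) := by
      intro N
      refine (measureReal_mono ?_).trans (hbound N)
      intro ω hω
      simp only [hA, Set.mem_iInter, Set.mem_compl_iff]
      intro i _
      exact hω _ (hkK i)
    have h0 : P.real {ω | ∀ k, K ≤ k → ω ∉ E k} ≤ 0 := ge_of_tendsto' hlim hle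
    have h00 : P.real {ω | ∀ k, K ≤ k → ω ∉ E k} = 0 := le_antisymm h0 measureReal_nonneg
    rwa [measureReal_eq_zero_iff] at h00
  have hall : ∀ᵐ ω ∂P, ∀ j : ℕ, ¬ ∀ k, K₁ + j ≤ k → ω ∉ E k := by
    rw [ae_all_iff]
    intro j
    rw [ae_iff]
    simp only [not_not]
    exact hmain _ (by omega)
  filter_upwards [hall] with ω hω
  rw [Set.infinite_iff_exists_gt]
  intro n
  have h := hω (n + 1)
  push Not at h
  obtain ⟨k, hk1, hk2⟩ := h
  exact ⟨k, hk2, by omega⟩

/-- the events -/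
def Ew (d : ℕ → ℕ) (p : ℕ → ℝ) (k : ℕ) : Set (ℕ × ℕ → ℝ) := {u | u (bet d k) ≤ p k}

lemma ew_meas (d : ℕ → ℕ) (p : ℕ → ℝ) (k : ℕ) : MeasurableSet (Ew d p k) :=
  measurableSet_le (measurable_pi_apply _) measurable_const

lemma range_dep {d : ℕ → ℕ} (hd : Monotone d) (p : ℕ → ℝ) : RangeDep Pm (Ew d p) d := by
  refine ⟨ew_meas d p, fun n => ?_⟩
  have hi : iIndepFun (fun (i : ℕ × ℕ) (u : ℕ × ℕ → ℝ) => u i) Pm :=
    iIndepFun_infinitePi (P := fun _ => nu) (X := fun _ x => x) (fun _ => measurable_id)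
  have hi' : iIndep (fun i : ℕ × ℕ => MeasurableSpace.comap (fun u : ℕ × ℕ → ℝ => u i)
      inferInstance) Pm := hi
  have hdisj : Disjoint {i : ℕ × ℕ | ∃ k, k ≤ n ∧ bet d k = i}
      {i : ℕ × ℕ | ∃ k, n + d n < k ∧ bet d k = i} := by
    rw [Set.disjoint_left]
    rintro i ⟨k, hk, rfl⟩ ⟨k', hk', h⟩
    exact bet_ne hd hk hk' h.symm
  have h := indep_iSup_of_disjoint (fun i => (measurable_pi_apply i).comap_le) hi' hdisj
  have hm : ∀ (S : Set (ℕ × ℕ)) (k : ℕ), bet d k ∈ S →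
      MeasurableSet[⨆ i ∈ S, MeasurableSpace.comap (fun u : ℕ × ℕ → ℝ => u i) inferInstance]
        (Ew d p k) := by
    intro S k hk
    have h1 : MeasurableSpace.comap (fun u : ℕ × ℕ → ℝ => u (bet d k)) inferInstance ≤
        ⨆ i ∈ S, MeasurableSpace.comap (fun u : ℕ × ℕ → ℝ => u i) inferInstance :=
      le_iSup₂ (f := fun i (_ : i ∈ S) =>
        MeasurableSpace.comap (fun u : ℕ × ℕ → ℝ => u i) inferInstance) (bet d k) hk
    apply h1
    exact ⟨Set.Iic (p k), measurableSet_Iic, rfl⟩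
  refine indep_of_indep_of_le_left (indep_of_indep_of_le_right h ?_) ?_
  · apply MeasurableSpace.generateFrom_le
    rintro s ⟨k, hk, rfl⟩
    exact hm _ k ⟨k, hk, rfl⟩
  · apply MeasurableSpace.generateFrom_le
    rintro s ⟨k, hk, rfl⟩
    exact hm _ k ⟨k, hk, rfl⟩

/-- the union over the dyadic block -/
def Dw (d : ℕ → ℕ) (p : ℕ → ℝ) (s : ℕ) : Set (ℕ × ℕ → ℝ) :=
  ⋃ j ∈ Finset.range (2 ^ s / Ln d s + 1), {u | u (s, j) ≤ p (2 ^ s - 1)}

lemma ew_sub (d : ℕ → ℕ) {p : ℕ → ℝ} (hp : Antitone p) (k : ℕ) :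
    Ew d p k ⊆ Dw d p (Nat.log 2 (k + 1)) := by
  intro u hu
  set s := Nat.log 2 (k + 1) with hs
  have hp1 : 2 ^ s ≤ k + 1 := Nat.pow_log_le_self 2 (by omega)
  have hp2 : k + 1 < 2 ^ (s + 1) := Nat.lt_pow_succ_log_self (by norm_num) _
  simp only [Dw, Set.mem_iUnion, Finset.mem_range, exists_prop]
  refine ⟨(k + 1 - 2 ^ s) / Ln d s, ?_, ?_⟩
  · have : (k + 1 - 2 ^ s) / Ln d s ≤ 2 ^ s / Ln d s := by
      apply Nat.div_le_div_right
      rw [pow_succ] at hp2
      omega
    omega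
  · have h1 : u (bet d k) ≤ p k := hu
    exact h1.trans (hp (by omega))

lemma dw_le (d : ℕ → ℕ) {p : ℕ → ℝ} (hp0 : ∀ k, 0 ≤ p k) (hp1 : ∀ k, p k ≤ 1) (s : ℕ) :
    Pm.real (Dw d p s) ≤
      ((2 : ℝ) ^ s / (1 + (d (2 ^ s - 1) : ℝ)) + 2) * p (2 ^ s - 1) := by
  have h1 : Pm.real (Dw d p s) ≤ ((2 ^ s / Ln d s + 1 : ℕ) : ℝ) * p (2 ^ s - 1) := by
    refine (measureReal_biUnion_finset_le _ _).trans (le_of_eq ?_)
    rw [Finset.sum_congr rfl fun j _ => Pm_Iic (s, j) (hp0 _) (hp1 _), Finset.sum_const,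
      Finset.card_range, nsmul_eq_mul]
  refine h1.trans (mul_le_mul_of_nonneg_right ?_ (hp0 _))
  have hL : (0 : ℝ) < Ln d s := by exact_mod_cast Ln_pos d s
  have h2 : ((2 ^ s / Ln d s : ℕ) : ℝ) ≤ (2 : ℝ) ^ s / Ln d s := by
    have := Nat.cast_div_le (α := ℝ) (m := 2 ^ s) (n := Ln d s)
    push_cast at this
    exact this
  have ha : (0 : ℝ) < 1 + (d (2 ^ s - 1) : ℝ) := by positivity
  have hb : (0 : ℝ) < (2 : ℝ) ^ s := by positivity
  have h3 : (2 : ℝ) ^ s / Ln d s ≤ (2 : ℝ) ^ s / (1 + (d (2 ^ s - 1) : ℝ)) + 1 := by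
    unfold Ln
    rcases min_choice (1 + d (2 ^ s - 1)) (2 ^ s) with h | h
    · rw [h]; push_cast
      linarith
    · rw [h]; push_cast
      rw [div_self hb.ne']
      have : 0 ≤ (2 : ℝ) ^ s / (1 + (d (2 ^ s - 1) : ℝ)) := by positivity
      linarith
  push_cast
  linarith

/-- the convergent case -/
theorem gen_b {d : ℕ → ℕ} (hd : Monotone d) {p : ℕ → ℝ} (hp : Antitone p) (hp0 : ∀ k, 0 ≤ p k)
    (hp1 : ∀ k, p k ≤ 1) (h2p : Summable fun s : ℕ => p (2 ^ s))
    (hs : Summable (fun k : ℕ => p k / (1 + (d k : ℝ)))) :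
    ∃ (Ω : Type) (_ : MeasurableSpace Ω) (P : Measure Ω) (_ : IsProbabilityMeasure P)
      (E : ℕ → Set Ω), RangeDep P E d ∧ (∀ k : ℕ, P.real (E k) = p k) ∧
      ∀ᵐ ω ∂P, {k | ω ∈ E k}.Finite := by
  refine ⟨ℕ × ℕ → ℝ, inferInstance, Pm, inferInstance, Ew d p, range_dep hd p,
    fun k => Pm_Iic _ (hp0 k) (hp1 k), ?_⟩
  have hc : Summable fun s : ℕ => (2 : ℝ) ^ s * (p (2 ^ s) / (1 + (d (2 ^ s) : ℝ))) := by
    refine (summable_condensed_iff_of_nonneg (f := fun k : ℕ => p k / (1 + (d k : ℝ)))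
      (fun n => div_nonneg (hp0 n) (by positivity)) ?_).2 hs
    intro m n _ hmn
    have hdd : (d m : ℝ) ≤ d n := by exact_mod_cast hd hmn
    exact div_le_div₀ (hp0 _) (hp hmn) (by positivity) (by linarith)
  have hsum : Summable fun s : ℕ => Pm.real (Dw d p s) := by
    rw [← summable_nat_add_iff 1]
    refine Summable.of_nonneg_of_le (fun s => measureReal_nonneg)
      (fun s => (dw_le d hp0 hp1 (s + 1)).trans ?_) ((hc.mul_left 2).add (h2p.mul_left 2))
    have h3 : 2 ^ s ≤ 2 ^ (s + 1) - 1 := by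
      have := Nat.two_pow_pos s
      rw [pow_succ]; omega
    have h4 : (d (2 ^ s) : ℝ) ≤ d (2 ^ (s + 1) - 1) := by exact_mod_cast hd h3
    have h5 : p (2 ^ (s + 1) - 1) ≤ p (2 ^ s) := hp h3
    have ha : (0 : ℝ) < 1 + (d (2 ^ s) : ℝ) := by positivity
    have h6 : (2 : ℝ) ^ (s + 1) / (1 + (d (2 ^ (s + 1) - 1) : ℝ)) ≤
        (2 : ℝ) ^ (s + 1) / (1 + (d (2 ^ s) : ℝ)) :=
      div_le_div_of_nonneg_left (by positivity) ha (by linarith)
    calc ((2 : ℝ) ^ (s + 1) / (1 + (d (2 ^ (s + 1) - 1) : ℝ)) + 2) * p (2 ^ (s + 1) - 1)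
        ≤ ((2 : ℝ) ^ (s + 1) / (1 + (d (2 ^ s) : ℝ)) + 2) * p (2 ^ s) :=
          mul_le_mul (by linarith) h5 (hp0 _) (by positivity)
      _ = 2 * ((2 : ℝ) ^ s * (p (2 ^ s) / (1 + (d (2 ^ s) : ℝ)))) + 2 * p (2 ^ s) := by
          rw [pow_succ]; ring
  have hfin : ∑' s, Pm (Dw d p s) ≠ ⊤ := by
    have h1 : ∀ s, Pm (Dw d p s) = ENNReal.ofReal (Pm.real (Dw d p s)) := fun s => by
      rw [ofReal_measureReal]
    simp_rw [h1]
    exact hsum.tsum_ofReal_ne_top
  filter_upwards [ae_eventually_notMem hfin] with u hu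
  obtain ⟨S, hS⟩ := eventually_atTop.1 hu
  refine (Set.finite_Iio (2 ^ S)).subset fun k hk => ?_
  have h1 : u ∈ Dw d p (Nat.log 2 (k + 1)) := ew_sub d hp k hk
  have h2 : Nat.log 2 (k + 1) < S := by
    by_contra hcon
    exact hS _ (not_lt.1 hcon) h1
  have h3 : k + 1 < 2 ^ S := Nat.lt_pow_of_log_lt (by norm_num) h2
  simp only [Set.mem_Iio]
  omega

/-- the probabilities of the triplets -/
noncomputable def tp (k : ℕ) : ℝ := 1 / Real.log ((k : ℝ) + 3) ^ 3

lemma log3 (k : ℕ) : 1 ≤ Real.log ((k : ℝ) + 3) := by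
  rw [Real.le_log_iff_exp_le (by positivity)]
  have h1 := Real.exp_one_lt_d9
  have h2 : (0 : ℝ) ≤ k := Nat.cast_nonneg k
  linarith

lemma tp_anti : Antitone tp := by
  intro a b hab
  have h1 : (a : ℝ) ≤ b := by exact_mod_cast hab
  have h2 : Real.log ((a : ℝ) + 3) ≤ Real.log ((b : ℝ) + 3) :=
    Real.log_le_log (by positivity) (by linarith)
  have h3 := log3 a
  unfold tp
  apply one_div_le_one_div_of_le (by positivity)
  exact pow_le_pow_left₀ (by linarith) h2 3

lemma tp_nonneg (k : ℕ) : 0 ≤ tp k := by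
  have := log3 k
  unfold tp
  positivity

lemma tp_le (k : ℕ) : tp k ≤ 1 := by
  have := log3 k
  unfold tp
  rw [div_le_one (by positivity)]
  exact one_le_pow₀ this

lemma tp_two : Summable fun s : ℕ => tp (2 ^ s) := by
  rw [← summable_nat_add_iff 1]
  have h2 : 0 < Real.log 2 := Real.log_pos (by norm_num)
  have h1 : Summable fun s : ℕ => (1 / Real.log 2 ^ 3) * (1 / (((s + 1 : ℕ) : ℝ)) ^ 3) :=
    ((summable_nat_add_iff 1).2 (Real.summable_one_div_nat_pow.2 (by norm_num))).mul_left _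
  refine Summable.of_nonneg_of_le (fun s => tp_nonneg _) (fun s => ?_) h1
  have h3 : ((s + 1 : ℕ) : ℝ) * Real.log 2 ≤ Real.log (((2 ^ (s + 1) : ℕ) : ℝ) + 3) := by
    rw [← Real.log_pow]
    apply Real.log_le_log (by positivity)
    push_cast
    linarith
  have h4 : 0 < ((s + 1 : ℕ) : ℝ) * Real.log 2 := by positivity
  have h5 : (((s + 1 : ℕ) : ℝ) * Real.log 2) ^ 3 ≤ Real.log (((2 ^ (s + 1) : ℕ) : ℝ) + 3) ^ 3 :=
    pow_le_pow_left₀ h4.le h3 3
  have h6 : tp (2 ^ (s + 1)) ≤ 1 / (((s + 1 : ℕ) : ℝ) * Real.log 2) ^ 3 := by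
    unfold tp
    exact one_div_le_one_div_of_le (by positivity) h5
  refine h6.trans (le_of_eq ?_)
  rw [mul_pow]
  field_simp

end Pool.Agent.H41.DT
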